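import Pool.Agent.Q196.NM.Main

/-!
# `R = a (1 + P / (Q P + P'))` with `Q ≠ 0` never shares `a` with `R'` in the plane

Let `a ≠ 0`, let `P` be a polynomial with only simple zeros, `Q` a nonzero polynomial, and suppose
that `R = a (1 + P / (Q P + P'))` is not constant. Then `R` and `R'` do not share `a` in the plane.
Consequently, a non-constant rational function `R` which shares a nonzero value `a` with `R'` in the
plane is of the form `a (1 + P / P')` with a polynomial `P` all of whose zeros are simple.

Idea of the proof. Put `D = Q P + P'`. The map `F(z) = z - P(z) / D(z)` is the Newton map of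
`P exp (∫ Q)`; its finite fixed points are the zeros of `P`, and they are critical. If `R` and `R'`
share `a`, then `F` has no other critical point `z` with `F(z) ≠ ∞`. Since `Q ≠ 0`, infinity is a
parabolic fixed point of `F`: there are a half plane `H` and a holomorphic `ψ` on `H` with
`F ∘ ψ = ψ ∘ φ`, `φ(w) = w + 1 + o(1)`. As `F` is a covering map over the complement of the zeros
of `P`, `ψ` lifts to maps `ψ_k` on `H` with `F^k ∘ ψ_k = ψ` and `ψ_k ∘ φ^k = ψ`, which omit a disc
about a zero of `P`. The Schwarz lemma on larger and larger discs contradicts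
`ψ(φ(w)) ≠ ψ(w)`.
-/

set_option autoImplicit false

open Polynomial Q196.NM

namespace Pool.Agent.Results.MP_db5e86_an.NoSharing

/-- (1) For every `a ≠ 0`, every polynomial `P` with only simple zeros and every polynomial `Q ≠ 0`
for which `R = a (1 + P / (Q P + P'))` is non-constant, `R` and `R'` do not share `a` in the plane.
(2) Every non-constant rational function `R` which shares some `a ≠ 0` with `R'` in the plane equals
`a (1 + P / P')` for a polynomial `P` with only simple zeros. -/
theorem result :
    (∀ (a : ℂ) (P Q : ℂ[X]), a ≠ 0 → SimpleZeros P → Q ≠ 0 → NonConst (ratR a P Q) →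
      ¬ SharesInPlane (ratR a P Q) a) ∧
    (∀ (a : ℂ) (R : RatFunc ℂ), a ≠ 0 → NonConst R → SharesInPlane R a →
      ∃ P : ℂ[X], SimpleZeros P ∧ R = ratR a P 0) :=
  ⟨fun _ _ _ ha hP hQ hR => not_shares ha hP hQ hR, fun _ _ ha hR hs => classify ha hR hs⟩

end Pool.Agent.Results.MP_db5e86_an.NoSharing
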